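import Pool.Agent.Helper68.PT.Ext2
import Pool.Agent.Helper36.Alg.Defs

/-!
# AL-2: the rank over `ℤ/p` is computable in polynomial time

Author: helper68.
-/

set_option autoImplicit false

namespace Pool.Agent.Helper36.Alg

open Finset Pool.Agent.Helper36.PT

variable {α : Type} [Enc α]

@[fun_prop]
theorem polyTime_rkPos {n m : α → ℕ} {M : α → List ℕ} (hn : PolyTime n) (hm : PolyTime m)
    (hM : PolyTime M) : PolyTime (fun a => rkPos (n a) (m a) (M a)) := by
  unfold rkPos
  fun_prop

@[fun_prop]
theorem polyTime_rkElim {p n m k : α → ℕ} {M : α → List ℕ} (hp : PolyTime p) (hn : PolyTime n)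
    (hm : PolyTime m) (hk : PolyTime k) (hM : PolyTime M) :
    PolyTime (fun a => rkElim (p a) (n a) (m a) (k a) (M a)) := by
  unfold rkElim
  fun_prop

@[fun_prop]
theorem polyTime_rkStep {p n m : α → ℕ} {s : α → ℕ × List ℕ} (hp : PolyTime p) (hn : PolyTime n)
    (hm : PolyTime m) (hs : PolyTime s) :
    PolyTime (fun a => rkStep (p a) (n a) (m a) (s a)) := by
  unfold rkStep
  fun_prop

/-- The table of the state has `n * m` entries less than `p`. -/
private theorem rkStep_inv {p n m : ℕ} {s : ℕ × List ℕ} (hp : 0 < p)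
    (h : s.2.length = n * m ∧ ∀ t ∈ s.2, t ≤ p) :
    (rkStep p n m s).1 ≤ s.1 + 1 ∧
      ((rkStep p n m s).2.length = n * m ∧ ∀ t ∈ (rkStep p n m s).2, t ≤ p) := by
  unfold rkStep
  split_ifs with hc
  · refine ⟨le_rfl, ?_, ?_⟩
    · simp [rkElim]
    · intro t ht
      simp only [rkElim, List.mem_map] at ht
      obtain ⟨u, -, rfl⟩ := ht
      exact (Nat.mod_lt _ hp).le
  · exact ⟨Nat.le_succ _, h⟩

theorem polyTime_rankF {p n m : α → ℕ} {f : α → ℕ → ℕ → ℕ} (hp : PolyTime p) (hn : PolyTime n)
    (hm : PolyTime m) (hf : PolyTime (fun q : (α × ℕ) × ℕ => f q.1.1 q.1.2 q.2)) :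
    PolyTime (fun a => rankF (p a) (n a) (m a) (f a)) := by
  unfold rankF
  have h := @PolyTime.unc2 _ _ _ _ _ _ _ _ _ hf
  refine PolyTime.fst.comp (PolyTime.recN hn ?_ ?_ ?_)
  · fun_prop
  · fun_prop
  · refine ⟨fun a => 2 * n a + 1 + (n a * m a) * (2 * (p a + 1) + 1), ?_, ?_⟩
    · have h1 := bdd_nat hn
      have h2 := bdd_nat hm
      have h3 := bdd_nat hp
      exact (((Bdd.const 2).mul h1).add (Bdd.const 1)).add
        ((h1.mul h2).mul (((Bdd.const 2).mul (h3.add (Bdd.const 1))).add (Bdd.const 1)))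
    · intro a i hi
      have key : ∀ i, (recN ((0 : ℕ), (List.range (n a * m a)).map
          (fun t => f a (t / m a) (t % m a) % (p a - 1 + 1)))
          (fun _ s => rkStep (p a - 1 + 1) (n a) (m a) s) i).1 ≤ i ∧
          ((recN ((0 : ℕ), (List.range (n a * m a)).map
          (fun t => f a (t / m a) (t % m a) % (p a - 1 + 1)))
          (fun _ s => rkStep (p a - 1 + 1) (n a) (m a) s) i).2.length = n a * m a ∧
          ∀ t ∈ (recN ((0 : ℕ), (List.range (n a * m a)).map
          (fun t => f a (t / m a) (t % m a) % (p a - 1 + 1)))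
          (fun _ s => rkStep (p a - 1 + 1) (n a) (m a) s) i).2, t ≤ p a - 1 + 1) := by
        intro i
        induction i with
        | zero =>
          refine ⟨le_rfl, by simp [recN], ?_⟩
          intro t ht
          simp only [recN, List.mem_map] at ht
          obtain ⟨u, -, rfl⟩ := ht
          exact (Nat.mod_lt _ (Nat.succ_pos _)).le
        | succ i ih =>
          obtain ⟨h1, h2⟩ := ih
          obtain ⟨k1, k2⟩ := rkStep_inv (n := n a) (m := m a) (Nat.succ_pos (p a - 1)) h2
          exact ⟨k1.trans (Nat.succ_le_succ h1), k2⟩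
      obtain ⟨h1, h2, h3⟩ := key i
      have h4 := esz_list_le (B := p a + 1) (fun t ht => by
        rw [esz_nat]
        exact (h3 t ht).trans (by omega))
      rw [h2] at h4
      have h5 := esz_pair (recN ((0 : ℕ), (List.range (n a * m a)).map
          (fun t => f a (t / m a) (t % m a) % (p a - 1 + 1)))
          (fun _ s => rkStep (p a - 1 + 1) (n a) (m a) s) i).1 (recN ((0 : ℕ), (List.range (n a * m a)).map
          (fun t => f a (t / m a) (t % m a) % (p a - 1 + 1)))
          (fun _ s => rkStep (p a - 1 + 1) (n a) (m a) s) i).2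
      rw [esz_nat] at h5
      change _ ≤ 2 * n a + 1 + n a * m a * (2 * (p a + 1) + 1)
      calc _ = _ := h5
        _ ≤ _ := by omega

end Pool.Agent.Helper36.Alg
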